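import Mathlib
import Pool.Agent.H.MP_c9d3d4_lc.A

namespace Pool.Agent.Results.MP_c9d3d4_lc.Lower

open MeasureTheory

/-- size of a finitely supported sequence -/
def size (p : ℕ →₀ ℕ) : ℕ := p.sum fun _ a => a

/-- l1 distance at most one -/
def Neighbours (p q : ℕ →₀ ℕ) : Prop :=
  ∑ i ∈ p.support ∪ q.support, |(p i : ℤ) - (q i : ℤ)| ≤ 1

theorem result (ε : ℝ) (n : ℕ) (hn : 5 ≤ n) (A : (ℕ →₀ ℕ) → Measure (ℕ → ℝ))
    (hprob : ∀ p : ℕ →₀ ℕ, Antitone p → size p ≤ n → IsProbabilityMeasure (A p))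
    (hDP : ∀ p q : ℕ →₀ ℕ, Antitone p → Antitone q → size p ≤ n → size q ≤ n →
      Neighbours p q → ∀ S : Set (ℕ → ℝ), MeasurableSet S →
        A p S ≤ ENNReal.ofReal (Real.exp ε) * A q S) :
    ∃ p : ℕ →₀ ℕ, Antitone p ∧ size p = n ∧
      ENNReal.ofReal ((1 / 16) * (Real.sqrt n / Real.exp ε)) ≤
        ∫⁻ o, ∑' i, ENNReal.ofReal |o i - (p i : ℝ)| ∂(A p) := by
  classical
  open Pool.Agent.H.MP_c9d3d4_lc in
  obtain ⟨m, hm1, hm2, hm3⟩ : ∃ m : ℕ, 1 ≤ m ∧ m * (2 * m + 1) + (m + 1) ≤ n ∧ n ≤ 16 * m ^ 2 := by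
    have hex : ∃ k : ℕ, n < (k + 1) * (2 * (k + 1) + 1) + (k + 1 + 1) := ⟨n, by nlinarith⟩
    refine ⟨Nat.find hex, ?_, ?_, ?_⟩
    · by_contra h
      have h0 : Nat.find hex = 0 := by omega
      have := Nat.find_spec hex
      rw [h0] at this
      omega
    · rcases Nat.eq_zero_or_pos (Nat.find hex) with h | h
      · rw [h]; omega
      · have := Nat.find_min hex (m := Nat.find hex - 1) (by omega)
        rw [Nat.sub_add_cancel h] at this
        omega
    · have h1 := Nat.find_spec hex
      have h2 : 1 ≤ Nat.find hex := by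
        by_contra h
        have h0 : Nat.find hex = 0 := by omega
        rw [h0] at h1
        omega
      nlinarith
  obtain ⟨r, hr⟩ := Nat.exists_eq_add_of_le hm2
  have hK : 0 < Real.exp ε := Real.exp_pos ε
  set d := 2 * m + 1 with hd
  have hsz : ∀ x, x ⊆ Finset.range d → size (stair d r x) = m * d + r + x.card :=
    fun x hx => stair_size m r x hx
  have hpr : ∀ x, x ⊆ Finset.range d → x.card ≤ m + 1 → IsProbabilityMeasure (A (stair d r x)) :=
    fun x hx hc => hprob _ (stair_anti d r x hx) (by rw [hsz x hx]; omega)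
  have hms : ∀ i, MeasurableSet {o : ℕ → ℝ | o i < base d r i + 1 / 2} := fun i =>
    measurableSet_lt (measurable_pi_apply i) measurable_const
  obtain ⟨x, hx, hc, hge⟩ := comb m (Real.exp ε) hK
    (fun x i => (A (stair d r x)).real {o | o i < base d r i + 1 / 2})
    (fun x hx hc i => by
      haveI := hpr x hx hc
      exact ⟨measureReal_nonneg, measureReal_le_one⟩)
    (fun y hy hc j hj hjy i => by
      have hsub : insert j y ⊆ Finset.range d := Finset.insert_subset hj hy
      have hc' : (insert j y).card = m + 1 := by rw [Finset.card_insert_of_notMem hjy, hc]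
      haveI := hpr y hy (by omega)
      haveI := hpr _ hsub hc'.le
      have key : ∀ S, MeasurableSet S →
          (A (stair d r y)).real S ≤ Real.exp ε * (A (stair d r (insert j y))).real S := by
        intro S hS
        have := hDP _ _ (stair_anti d r y hy) (stair_anti d r _ hsub) (by rw [hsz y hy]; omega)
          (by rw [hsz _ hsub]; omega) (stair_dist d r y j _) S hS
        have h2 := ENNReal.toReal_mono (ENNReal.mul_ne_top ENNReal.ofReal_ne_top
          (measure_ne_top _ _)) this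
        rwa [ENNReal.toReal_mul, ENNReal.toReal_ofReal hK.le] at h2
      refine ⟨key _ (hms i), ?_⟩
      rw [← probReal_compl_eq_one_sub (hms i), ← probReal_compl_eq_one_sub (hms i)]
      exact key _ (hms i).compl)
  refine ⟨stair d r x, stair_anti d r x hx, by rw [hsz x hx]; omega, ?_⟩
  haveI := hpr x hx hc.le
  refine le_trans (ENNReal.ofReal_le_ofReal ?_) (err_ge d r x (A (stair d r x)))
  have hs : Real.sqrt n ≤ 4 * m := by
    rw [Real.sqrt_le_left (by positivity)]
    have : (n : ℝ) ≤ 16 * (m : ℝ) ^ 2 := by exact_mod_cast hm3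
    linarith
  have : (1 / 16) * (Real.sqrt n / Real.exp ε) ≤ (1 / 2) * ((m : ℝ) / (2 * Real.exp ε)) := by
    have e : (1 / 2) * ((m : ℝ) / (2 * Real.exp ε)) = (1 / 16) * ((4 * m) / Real.exp ε) := by
      field_simp; ring
    rw [e]
    gcongr
  linarith

end Pool.Agent.Results.MP_c9d3d4_lc.Lower
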